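import Pool.Agent.H699.MW.Gr

/-!
MW-LST: one level of messages in law (helper200 for helper699)
-/

set_option autoImplicit false
set_option linter.unusedVariables false

open MeasureTheory Finset
open scoped Classical

namespace Pool.Agent.H200.MW.LST

open Pool.Agent.H699.MW

theorem pmax_enum {α : Type} (s : Finset α) (x : α → ℝ) :
    pmax s x = pmax univ (fun i : Fin s.card => x (s.equivFin.symm i).1) := by
  have hinj : Function.Injective (fun i : Fin s.card => ((s.equivFin.symm i : s) : α)) := by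
    intro i j hij
    exact s.equivFin.symm.injective (Subtype.ext hij)
  have hs : s = univ.map ⟨fun i : Fin s.card => ((s.equivFin.symm i : s) : α), hinj⟩ := by
    ext a
    rw [Finset.mem_map]
    constructor
    · intro ha
      refine ⟨s.equivFin ⟨a, ha⟩, mem_univ _, ?_⟩
      change ((s.equivFin.symm (s.equivFin ⟨a, ha⟩) : s) : α) = a
      rw [Equiv.symm_apply_apply]
    · rintro ⟨i, -, rfl⟩
      exact (s.equivFin.symm i).2
  unfold pmax
  conv_lhs => rw [hs]
  rw [Finset.fold_map]
  rfl

theorem meas_pmax {Ω ι : Type} [MeasurableSpace Ω] (s : Finset ι) (h : ι → Ω → ℝ)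
    (hh : ∀ i, Measurable (h i)) : Measurable (fun ω => pmax s (fun i => h i ω)) := by
  induction s using Finset.induction_on with
  | empty =>
    have : (fun ω : Ω => pmax (∅ : Finset ι) (fun i => h i ω)) = fun _ => (0 : ℝ) := by
      funext ω
      simp [pmax]
    rw [this]
    exact measurable_const
  | insert a s ha ih =>
    have : (fun ω : Ω => pmax (insert a s) (fun i => h i ω)) =
        fun ω => max (h a ω) (pmax s (fun i => h i ω)) := by
      funext ω
      unfold pmax
      rw [Finset.fold_insert ha]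
    rw [this]
    exact (hh a).max ih

theorem rch_mem {V : Type} [Fintype V] {G : SimpleGraph V} {S : Finset V} {u x : V} (hu : u ∈ S)
    (h : Rch G S u x) : x ∈ S := by
  unfold Rch at h
  induction h with
  | refl => exact hu
  | tail _ h2 _ => exact h2.2

theorem t_LST : S_MSM → S_DEP → S_ACY → S_PIF → S_LST := by
  intro hMSM hDEP hACY hPIF V _ G μ b S v hμ hac hv
  refine ⟨fun i => ((nb G S v).equivFin.symm i).1, fun i => ((nb G S v).equivFin.symm i).2,
    fun n s => ?_⟩
  obtain ⟨u, hu⟩ : ∃ u : Fin (nb G S v).card → V, u = fun i => ((nb G S v).equivFin.symm i).1 :=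
    ⟨_, rfl⟩
  have hui : ∀ i, u i ∈ nb G S v := fun i => by
    rw [hu]
    exact ((nb G S v).equivFin.symm i).2
  have huinj : Function.Injective u := by
    rw [hu]
    intro i j hij
    exact (nb G S v).equivFin.symm.injective (Subtype.ext hij)
  have hue : ∀ i, u i ∈ S.erase v := fun i => (mem_filter.1 (hui i)).1
  have hmsg : msg G b (n + 1) S v s = (fun p : Fin (nb G S v).card → ℝ × ℝ =>
      pmax univ fun i => (p i).1 - (p i).2) ∘
      (fun (ω : Sym2 V → ℝ) (i : Fin (nb G S v).card) =>
        (ω s(v, u i), msg G b n (S.erase v) (u i) (!s) ω)) := by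
    funext ω
    change pmax (nb G S v) (fun u => ω s(v, u) - msg G b n (S.erase v) u (!s) ω) = _
    rw [pmax_enum]
    subst hu
    rfl
  have hE := hPIF (Sym2 V) μ (nb G S v).card (fun i => s(v, u i))
    (fun i => univ.filter fun z : Sym2 V => ∃ x y, z = s(x, y) ∧ G.Adj x y ∧
      Rch G (S.erase v) (u i) x ∧ Rch G (S.erase v) (u i) y)
    (fun i => msg G b n (S.erase v) (u i) (!s)) hμ
    (fun i => hMSM V G b n (S.erase v) (u i) (!s)) ?_ ?_ ?_ ?_
  · have hm1 : Measurable (fun p : Fin (nb G S v).card → ℝ × ℝ =>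
        pmax univ fun i => (p i).1 - (p i).2) :=
      meas_pmax univ (fun i (p : Fin (nb G S v).card → ℝ × ℝ) => (p i).1 - (p i).2) fun i =>
        (measurable_fst.comp (measurable_pi_apply i)).sub
          (measurable_snd.comp (measurable_pi_apply i))
    have hm2 : Measurable (fun (ω : Sym2 V → ℝ) (i : Fin (nb G S v).card) =>
        (ω s(v, u i), msg G b n (S.erase v) (u i) (!s) ω)) :=
      measurable_pi_lambda _ fun i => (measurable_pi_apply _).prodMk (hMSM V G b n _ _ _)
    unfold stepLaw
    rw [hmsg, ← Measure.map_map hm1 hm2, hE]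
    subst hu
    rfl
  · intro i j hij
    have h1 : s(v, u i) = s(v, u j) := hij
    exact huinj (Sym2.congr_right.1 h1)
  · intro i j hmem
    obtain ⟨x, y, hxy, -, hx, hy⟩ := (mem_filter.1 hmem).2
    have hxv : x ≠ v := (mem_erase.1 (rch_mem (hue j) hx)).1
    have hyv : y ≠ v := (mem_erase.1 (rch_mem (hue j) hy)).1
    have h1 : s(v, u i) = s(x, y) := hxy
    rw [Sym2.eq_iff] at h1
    rcases h1 with ⟨h, -⟩ | ⟨h, -⟩
    · exact hxv h.symm
    · exact hyv h.symm
  · intro i j hij
    rw [Finset.disjoint_left]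
    intro z hz hz'
    obtain ⟨x, y, hxy, -, hx, hy⟩ := (mem_filter.1 hz).2
    obtain ⟨x', y', hxy', -, hx', hy'⟩ := (mem_filter.1 hz').2
    rw [hxy, Sym2.eq_iff] at hxy'
    have hne : u i ≠ u j := fun h => hij (huinj h)
    rcases hxy' with ⟨h, -⟩ | ⟨h, -⟩
    · rw [← h] at hx'
      exact hACY V G S v (u i) (u j) x hac hv (hui i) (hui j) hne hx hx'
    · rw [← h] at hy'
      exact hACY V G S v (u i) (u j) x hac hv (hui i) (hui j) hne hx hy'
  · intro i ω ω' h
    refine hDEP V G b n (S.erase v) (u i) (!s) ω ω' fun x y hx hy hxy => h _ ?_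
    exact mem_filter.2 ⟨mem_univ _, x, y, rfl, hxy, hx, hy⟩

theorem t_LAW : S_LST → S_LAW := by
  intro hLST V _ G μ b d n
  induction n with
  | zero =>
    intro S v hμ hac hv hd hdd
    refine ⟨RT.node 0 (fun i => i.elim0), ⟨Nat.zero_le _, fun i => i.elim0⟩, fun s => ?_⟩
    have h1 : msg G b 0 S v s = fun _ => if s then b else 0 := rfl
    rw [h1, Measure.map_const, measure_univ, one_smul]
    cases s
    · rfl
    · rfl
  | succ n ih =>
    intro S v hμ hac hv hd hdd
    obtain ⟨u, hu, hlaw⟩ := hLST V G μ b S v hμ hac hv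
    have key : ∀ i, ∃ T : RT, T.Wd d ∧ ∀ s : Bool,
        (Measure.pi fun _ : Sym2 V => μ).map (msg G b n (S.erase v) (u i) s) = law μ b n T s := by
      intro i
      obtain ⟨h1, h2⟩ := mem_filter.1 (hu i)
      have huS : u i ∈ S := (mem_erase.1 h1).2
      have huv : u i ≠ v := (mem_erase.1 h1).1
      refine ih (S.erase v) (u i) hμ ?_ h1 ?_ ?_
      · have hsub : ((S.erase v : Finset V) : Set V) ≤ (S : Set V) := by
          exact_mod_cast Finset.erase_subset v S
        exact hac.comap (G.induceHomOfLE hsub).toHom (G.induceHomOfLE hsub).injective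
      · have hsub : nb G (S.erase v) (u i) ⊆ (nb G S (u i)).erase v := by
          intro x hx
          obtain ⟨h3, h4⟩ := mem_filter.1 hx
          obtain ⟨h5, h6⟩ := mem_erase.1 h3
          obtain ⟨h7, h8⟩ := mem_erase.1 h6
          exact mem_erase.2 ⟨h7, mem_filter.2 ⟨mem_erase.2 ⟨h5, h8⟩, h4⟩⟩
        have hvn : v ∈ nb G S (u i) := mem_filter.2 ⟨mem_erase.2 ⟨huv.symm, hv⟩, h2.symm⟩
        have h3 := card_le_card hsub
        rw [card_erase_of_mem hvn] at h3
        have h4 := hdd (u i) huS
        omega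
      · intro x hx
        have hsub : nb G (S.erase v) x ⊆ nb G S x := by
          intro y hy
          obtain ⟨h3, h4⟩ := mem_filter.1 hy
          obtain ⟨h5, h6⟩ := mem_erase.1 h3
          exact mem_filter.2 ⟨mem_erase.2 ⟨h5, (mem_erase.1 h6).2⟩, h4⟩
        exact (card_le_card hsub).trans (hdd x (mem_erase.1 hx).2)
    choose T hT1 hT2 using key
    refine ⟨RT.node (nb G S v).card T, ⟨hd, hT1⟩, fun s => ?_⟩
    rw [hlaw n s]
    simp only [hT2]
    rfl

end Pool.Agent.H200.MW.LST
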